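import Pool.Agent.Results.MP_00e23e_nt.AutomaticResidues
import Pool.Agent.TH872.GQ.Dual
import Pool.Agent.R557.AD.Scale

/-!
# Weighted level of distribution in the residue classes of the elements of an automatic set

From Mathlib: `DFA ℕ σ`: the deterministic automata with the set of states `σ` and the alphabet `ℕ`; `M.accepts`: the set
of the words accepted by `M`; `Nat.digits b v`: the digits of `v` in base `b`, from the least significant to the most
significant one; `ArithmeticFunction.vonMangoldt`: the function `Λ`; `Nat.totient`: Euler's function.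
-/

set_option autoImplicit false

namespace Pool.Agent.Results.MP_188a10_nt.AutomaticSets

open Finset

/-- `E(x; d, a) = ψ(x; d, a) - x / φ(d)`, where `ψ(x; d, a)` is the sum of `Λ(n)` over the `n ≤ x` with
`n ≡ a (mod d)`. -/
noncomputable def E (x d a : ℕ) : ℝ :=
  ∑ n ∈ (Icc 1 x).filter (fun n : ℕ => n ≡ a [MOD d]), ArithmeticFunction.vonMangoldt n - (x : ℝ) / Nat.totient d

/-- `τ(d)`: the number of the divisors of `d`. In particular `τ(d) ^ 2 ≥ 3 ^ ν(d)`, where `ν(d)` is the number of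
the prime factors of `d`. -/
noncomputable def τ (d : ℕ) : ℝ := d.divisors.card

/-- The sum of `λ(d) E(x(d); d, a)` over the `d ≤ Q` coprime to `a`. -/
noncomputable def weighted (lam : ℕ → ℝ) (x : ℕ → ℕ) (Q a : ℕ) : ℝ :=
  ∑ d ∈ (Icc 1 Q).filter (fun d : ℕ => a.Coprime d), lam d * E (x d) d a

open Classical in
/-- The integers `0 ≤ v < N` whose base `b` digits are accepted by the automaton `M`. -/
noncomputable def elems {σ : Type} (b : ℕ) (M : DFA ℕ σ) (N : ℕ) : Finset ℕ :=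
  (range N).filter fun v => Nat.digits b v ∈ M.accepts

/-- The sum of `w(v) E(x; d, a)` over the elements `v` of the finite set `S` for which `a = c + κ v` is positive and
coprime to `d`. -/
noncomputable def total (S : Finset ℕ) (κ c : ℕ) (w : ℕ → ℝ) (x d : ℕ) : ℝ :=
  ∑ v ∈ S.filter (fun v : ℕ => 0 < c + κ * v ∧ (c + κ * v).Coprime d), w v * E x d (c + κ * v)

open Classical in
/-- Let `S` be a `b`-automatic set: the set of the integers `v ≥ 0` whose base `b` digits are accepted by a finite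
automaton `M`. Suppose that `S` is not sparse: the number of the elements of `S` below `N` is not bounded by a power of
`log N`. Let `κ ≥ 1`, `B`, `T`, `U` and `ε > 0` be fixed, let `N` be large, `Q = N ^ (1 - ε)`, and let `c ≤ B N` be arbitrary.
For `v < N` in `S` let `a = c + κ v`.

(1) For arbitrary coefficients `λ(d)` with `|λ(d)| ≤ (τ(d) log N) ^ T` (e.g. `|λ(d)| ≤ 3 ^ ν(d)`, if `T = 2`) all the `v < N`
in `S` with `a > 0`, except for a proportion of at most `1 / log ^ U N` of all the `v < N` in `S`, satisfy: the sum of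
`λ(d) E(x; d, a)` over the `d ≤ Q` coprime to `a` is at most `N / log ^ U N` in absolute value, for ALL `x ≤ B N`.

(2) The same holds for the sums of `λ(d) E(x(d); d, a)`, if `x(d) ≤ B N` is an arbitrary function of the modulus.

(3) For arbitrary coefficients `|w(v)| ≤ log ^ T N` and arbitrary `x(d) ≤ B N`, the sum over ALL `d ≤ Q` of `τ(d) ^ T` times
the ABSOLUTE VALUE of the sum of `w(v) E(x(d); d, a)`, over the `v < N` in `S` for which `a` is positive and coprime to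
`d`, is at most `N / log ^ U N` times the number of the `v < N` in `S`. -/
theorem result {σ : Type} [Finite σ] (b : ℕ) (hb : 2 ≤ b) (M : DFA ℕ σ)
    (hM : ∀ k : ℕ, ∃ᶠ N : ℕ in Filter.atTop, Real.log N ^ k < ((elems b M N).card : ℝ))
    (κ : ℕ) (hκ : 1 ≤ κ) (B T U : ℕ) (ε : ℝ) (hε : 0 < ε) :
    ∃ N₀ : ℕ, ∀ N : ℕ, N₀ ≤ N → ∀ Q : ℕ, Q = ⌊(N : ℝ) ^ (1 - ε)⌋₊ → ∀ c : ℕ, c ≤ B * N →
      (∀ lam : ℕ → ℝ, (∀ d, |lam d| ≤ (τ d * Real.log N) ^ T) →
        (((elems b M N).filter (fun v : ℕ => 0 < c + κ * v ∧ ∃ x : ℕ, x ≤ B * N ∧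
          N / Real.log N ^ U < |weighted lam (fun _ => x) Q (c + κ * v)|)).card : ℝ) ≤
            (elems b M N).card / Real.log N ^ U ∧
        ∀ x : ℕ → ℕ, (∀ d, x d ≤ B * N) →
        (((elems b M N).filter (fun v : ℕ => 0 < c + κ * v ∧
          N / Real.log N ^ U < |weighted lam x Q (c + κ * v)|)).card : ℝ) ≤ (elems b M N).card / Real.log N ^ U) ∧
      (∀ w : ℕ → ℝ, (∀ v, |w v| ≤ Real.log N ^ T) → ∀ x : ℕ → ℕ, (∀ d, x d ≤ B * N) →
        ∑ d ∈ Icc 1 Q, τ d ^ T * |total (elems b M N) κ c w (x d) d| ≤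
          (elems b M N).card * (N / Real.log N ^ U)) := by
  have hnumM : ∀ N : ℕ, Pool.Agent.Results.MP_00e23e_nt.AutomaticResidues.num b M N (fun _ => True) = ((elems b M N).card : ℝ) := by
    intro N
    unfold Pool.Agent.Results.MP_00e23e_nt.AutomaticResidues.num elems
    congr 2
    ext v
    simp only [mem_filter, and_true]
  have hM' : ∀ k : ℕ, ∃ᶠ N : ℕ in Filter.atTop, Real.log N ^ k <
      Pool.Agent.Results.MP_00e23e_nt.AutomaticResidues.num b M N (fun _ => True) := by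
    intro k
    refine (hM k).mono fun N hN => ?_
    rw [hnumM]
    exact hN
  obtain ⟨T₁, U₁, m₁, k1, hA⟩ := Pool.Agent.TH872.GQ.heavy T (U + 1)
  obtain ⟨T₂, U₂, m₂, k2, hB⟩ := Pool.Agent.TH872.GQ.absolute T (U + 1)
  obtain ⟨n3, h3⟩ := Pool.Agent.Results.MP_00e23e_nt.AutomaticResidues.result b hb M hM' κ hκ B (T₁ + 1) (U₁ + 1) ε hε
  obtain ⟨n4, h4⟩ := Pool.Agent.Results.MP_00e23e_nt.AutomaticResidues.result b hb M hM' κ hκ B (T₂ + 1) (U₂ + 1) ε hε
  obtain ⟨n5, h5⟩ := Pool.Agent.R557.AD.scale_log B (max m₁ m₂) (k1 + k2 + 4 + 2 ^ T₁ + 2 ^ T₂ + 2 ^ U₁ + 2 ^ U₂) ε hε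
  refine ⟨n3 + n4 + n5, fun N hN Q hQ c hc => ?_⟩
  obtain ⟨k, hk, hkL, hLk, hkL2, s1, s2, s3, s4⟩ := h5 N (by omega)
  rw [← hQ] at s3
  have q1 : 0 < 2 ^ T₁ := by positivity
  have q2 : 0 < 2 ^ T₂ := by positivity
  have q3 : 0 < 2 ^ U₁ := by positivity
  have q4 : 0 < 2 ^ U₂ := by positivity
  have hk4 : (4 : ℝ) ≤ k := by exact_mod_cast (by omega : 4 ≤ k)
  have hk0 : (0 : ℝ) < k := by linarith
  have hk1 : (1 : ℝ) ≤ k := by linarith
  obtain ⟨L, hL⟩ : ∃ L, L = Real.log (N : ℝ) := ⟨_, rfl⟩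
  have h3' := h3 N (by omega) c hc
  have h4' := h4 N (by omega) c hc
  rw [← hL] at hkL hLk hkL2 h3' h4' ⊢
  have hL4 : (4 : ℝ) ≤ L := by
    refine le_trans ?_ hkL
    exact_mod_cast (by omega : 4 ≤ k1 + k2 + 4 + 2 ^ T₁ + 2 ^ T₂ + 2 ^ U₁ + 2 ^ U₂)
  have hL0 : (0 : ℝ) < L := by linarith
  have hL1 : (1 : ℝ) ≤ L := by linarith
  have hcmp : ∀ j : ℕ, 2 ^ j ≤ k1 + k2 + 4 + 2 ^ T₁ + 2 ^ T₂ + 2 ^ U₁ + 2 ^ U₂ → L ^ j ≤ (k : ℝ) ^ j ∧ (k : ℝ) ^ j ≤ L ^ (j + 1) := by
    intro j hj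
    apply Pool.Agent.R557.AD.cmp_pow k L hL0 hLk hkL2 j
    refine le_trans ?_ hkL
    exact_mod_cast hj
  have hLk' : ∀ j : ℕ, L ^ j ≤ (k : ℝ) ^ j := fun j => pow_le_pow_left₀ hL0.le hLk _
  obtain ⟨X, hX⟩ : ∃ X : ℕ, X = (B + 1) * N := ⟨_, rfl⟩
  rw [← hX] at s1 s2 s3 s4
  have hX' : B * N ≤ X := by rw [hX]; exact Nat.mul_le_mul_right _ (by omega)
  have hNX : (N : ℝ) ≤ X := by
    rw [hX]
    exact_mod_cast Nat.le_mul_of_pos_left N (by omega : 0 < B + 1)
  have hN0 : (0 : ℝ) ≤ N := Nat.cast_nonneg _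
  have s4' : ∀ U : ℕ, (X : ℝ) / (k : ℝ) ^ (U + 1) ≤ N / L ^ U := fun U =>
    (s4 U).trans (div_le_div_of_nonneg_left hN0 (by positivity) (hLk' U))
  have s5 : ∀ m, m ≤ max m₁ m₂ → (Q : ℝ) * (k : ℝ) ^ m ≤ X := by
    intro m hm
    refine le_trans ?_ s3
    exact mul_le_mul_of_nonneg_left (pow_le_pow_right₀ hk1 hm) (Nat.cast_nonneg _)
  obtain ⟨S, hS⟩ : ∃ S, S = elems b M N := ⟨_, rfl⟩
  obtain ⟨m, hm⟩ : ∃ m : ℝ, m = (S.card : ℝ) := ⟨_, rfl⟩
  have hnumN := hnumM N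
  rw [← hS, ← hm] at hnumN ⊢
  have hm0 : 0 ≤ m := by rw [hm]; exact Nat.cast_nonneg _
  have hnum : ∀ (P : ℕ → Prop) (s : Finset ℕ), (∀ v ∈ s, v ∈ S ∧ P v) →
      (s.card : ℝ) ≤ Pool.Agent.Results.MP_00e23e_nt.AutomaticResidues.num b M N P := by
    intro P s hs
    apply Nat.cast_le.2
    apply card_le_card
    intro v hv
    obtain ⟨h6, h7⟩ := hs v hv
    rw [hS] at h6
    unfold elems at h6
    rw [mem_filter] at h6 ⊢
    exact ⟨h6.1, h6.2, h7⟩
  obtain ⟨a, ha⟩ : ∃ a : ℕ → ℕ, a = fun v : ℕ => c + κ * v := ⟨_, rfl⟩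
  obtain ⟨Ω, hΩ⟩ : ∃ Ω : Finset ℕ, Ω = S.filter (fun v : ℕ => 0 < c + κ * v) := ⟨_, rfl⟩
  have hΩsum : ∀ (E : ℕ → Prop) (_ : DecidablePred E), ∑ v ∈ Ω, (if E v then 1 / m else 0) = ((Ω.filter E).card : ℝ) / m := by
    intro E _
    rw [← sum_filter, sum_const, nsmul_eq_mul, mul_one_div]
  have hyp : ∀ T' U' : ℕ, 2 ^ T' ≤ k1 + k2 + 4 + 2 ^ T₁ + 2 ^ T₂ + 2 ^ U₁ + 2 ^ U₂ →
      2 ^ U' ≤ k1 + k2 + 4 + 2 ^ T₁ + 2 ^ T₂ + 2 ^ U₁ + 2 ^ U₂ → (∀ lam : ℕ → ℝ, (∀ q, |lam q| ≤ L ^ (T' + 1)) →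
      Pool.Agent.Results.MP_00e23e_nt.AutomaticResidues.num b M N (fun v => 0 < c + κ * v ∧
        ¬ ∀ x ≤ B * N, |Pool.Agent.Results.MP_00e23e_nt.AutomaticResidues.weighted lam ⌊(N : ℝ) ^ (1 - ε)⌋₊ x (c + κ * v)| ≤
          N / L ^ (U' + 1)) ≤ Pool.Agent.Results.MP_00e23e_nt.AutomaticResidues.num b M N (fun _ => True) / L ^ (U' + 1)) →
      Pool.Agent.TH872.GQ.Hyp k X (B * N) Q T' U' Ω (fun _ => 1 / m) a := by
    intro T' U' hT' hU' h lam hlam E hdec hE
    have h6 := h lam (fun q => (hlam q).trans (hcmp T' hT').2)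
    rw [hnumN] at h6
    rw [hΩsum]
    have h7 : ((Ω.filter E).card : ℝ) ≤ m / L ^ (U' + 1) := by
      refine le_trans (hnum _ _ ?_) h6
      intro v hv
      rw [mem_filter] at hv
      obtain ⟨hv1, hv2⟩ := hv
      obtain ⟨x, hx, hlt⟩ := hE v hv1 hv2
      rw [hΩ, mem_filter] at hv1
      refine ⟨hv1.1, hv1.2, fun hLv => ?_⟩
      have h8 := hLv x hx
      rw [← hQ] at h8
      have h9 : (N : ℝ) / L ^ (U' + 1) ≤ X / (k : ℝ) ^ U' := by
        calc (N : ℝ) / L ^ (U' + 1) ≤ N / (k : ℝ) ^ U' := div_le_div_of_nonneg_left hN0 (by positivity) (hcmp U' hU').2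
          _ ≤ _ := div_le_div_of_nonneg_right hNX (by positivity)
      have h10 : Pool.Agent.Results.MP_00e23e_nt.AutomaticResidues.weighted lam Q x (c + κ * v) =
          Pool.Agent.TH212.EH.W lam Q x (a v) := by
        rw [ha]
        rfl
      rw [h10] at h8
      linarith
    have h11 : m / L ^ (U' + 1) ≤ m / (k : ℝ) ^ U' := div_le_div_of_nonneg_left hm0 (by positivity) (hcmp U' hU').2
    rcases eq_or_lt_of_le hm0 with h0 | h0
    · rw [← h0]
      simp
    · rw [div_le_iff₀ h0]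
      refine (h7.trans h11).trans (le_of_eq ?_)
      ring
  have hypA := hyp T₁ U₁ (by omega) (by omega) (fun lam hlam => h3' lam hlam)
  have hypB := hyp T₂ U₂ (by omega) (by omega) (fun lam hlam => h4' lam hlam)
  have hp : ∀ ω ∈ Ω, (0 : ℝ) ≤ 1 / m := fun _ _ => by positivity
  have hp1 : ∑ ω ∈ Ω, 1 / m ≤ 1 := by
    rw [sum_const, nsmul_eq_mul, mul_one_div]
    rcases eq_or_lt_of_le hm0 with h0 | h0
    · rw [← h0]
      simp
    · rw [div_le_one h0, hm, hΩ]
      exact_mod_cast card_filter_le _ _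
  have hcard : ∀ (P R : ℕ → Prop) (_ : DecidablePred P) (_ : DecidablePred R), (∀ v, R v → 0 < c + κ * v ∧ P v) →
      ∑ v ∈ Ω, (if P v then 1 / m else 0) ≤ 1 / (k : ℝ) ^ (U + 1) →
      ((S.filter R).card : ℝ) ≤ m / L ^ U := by
    intro P R hdec hdec' hR h
    rw [hΩsum] at h
    rcases eq_or_lt_of_le hm0 with h0 | h0
    · rw [← h0, zero_div]
      have : (((S.filter R).card : ℕ) : ℝ) ≤ m := by
        rw [hm]
        exact_mod_cast card_filter_le _ _
      linarith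
    · rw [div_le_iff₀ h0] at h
      have h6 : ((S.filter R).card : ℝ) ≤ ((Ω.filter P).card : ℝ) := by
        apply Nat.cast_le.2
        apply card_le_card
        intro v hv
        rw [mem_filter] at hv ⊢
        obtain ⟨h7, h8⟩ := hR v hv.2
        rw [hΩ, mem_filter]
        exact ⟨⟨hv.1, h7⟩, h8⟩
      refine h6.trans (h.trans ?_)
      rw [one_div, inv_mul_eq_div]
      exact div_le_div_of_nonneg_left hm0 (by positivity) ((hLk' U).trans (pow_le_pow_right₀ hk1 (by omega)))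
  constructor
  · intro lam hlam
    have hlam' : ∀ q, |lam q| ≤ (k : ℝ) ^ T * (q.divisors.card : ℝ) ^ T := by
      intro q
      refine (hlam q).trans ?_
      rw [mul_pow, mul_comm]
      exact mul_le_mul_of_nonneg_right (hLk' T) (pow_nonneg (Nat.cast_nonneg _) _)
    obtain ⟨r1, r2⟩ := hA k (by omega) X (B * N) Q hX' s1 s2 (s5 m₁ (le_max_left _ _)) ℕ Ω (fun _ => 1 / m) hp a hypA lam hlam'
    constructor
    · refine hcard (fun v : ℕ => ∃ x : ℕ, x ≤ B * N ∧ N / L ^ U < |weighted lam (fun _ => x) Q (c + κ * v)|) _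
        (fun _ => Classical.propDecidable _) _ (fun v h => h) (r1 _ _ ?_)
      rintro v _ ⟨x, hx, hlt⟩
      refine ⟨x, hx, lt_of_le_of_lt (s4' U) ?_⟩
      rw [ha]
      exact hlt
    · intro x hx
      refine hcard (fun v : ℕ => N / L ^ U < |weighted lam x Q (c + κ * v)|) _
        (fun _ => Classical.propDecidable _) _ (fun v h => h) (r2 x hx _ _ ?_)
      rintro v _ hlt
      refine lt_of_le_of_lt (s4' U) ?_
      rw [ha]
      exact hlt
  · intro w hw x hx
    have r3 := hB k (by omega) X (B * N) Q hX' s1 s2 (s5 m₂ (le_max_right _ _)) ℕ Ω (fun _ => 1 / m) hp hp1 a hypB w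
      (fun v => (hw v).trans (hLk' T)) x hx
    have r4 := r3.trans (s4' U)
    have e1 : ∀ d, |∑ v ∈ Ω.filter (fun v : ℕ => (a v).Coprime d), 1 / m * (w v *
        (Pool.Agent.W93.LV.Fu (fun n => ArithmeticFunction.vonMangoldt n) (x d) d (a v) - (x d : ℝ) / Nat.totient d))| =
        |total S κ c w (x d) d| / m := by
      intro d
      rw [← mul_sum, abs_mul, abs_of_nonneg (by positivity : 0 ≤ 1 / m), one_div, inv_mul_eq_div, hΩ, filter_filter, ha]
      rfl
    simp only [e1] at r4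
    rcases eq_or_lt_of_le hm0 with h0 | h0
    · have hemp : S = ∅ := by
        rw [← card_eq_zero]
        have : (S.card : ℝ) = 0 := by rw [← hm, ← h0]
        exact_mod_cast this
      have e2 : ∀ d, total S κ c w (x d) d = 0 := by
        intro d
        unfold total
        rw [hemp]
        simp
      rw [← h0, zero_mul]
      apply le_of_eq
      apply sum_eq_zero
      intro d _
      rw [e2, abs_zero, mul_zero]
    · have e3 : ∑ d ∈ Icc 1 Q, (d.divisors.card : ℝ) ^ T * (|total S κ c w (x d) d| / m) =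
          (∑ d ∈ Icc 1 Q, τ d ^ T * |total S κ c w (x d) d|) / m := by
        rw [sum_div]
        apply sum_congr rfl
        intro d _
        unfold τ
        ring
      rw [e3, div_le_iff₀ h0] at r4
      linarith

end Pool.Agent.Results.MP_188a10_nt.AutomaticSets
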