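import Mathlib
import Pool.Agent.R503.W.FinN

/-!
The weighted sum of the problem beyond the level `1/2`, with any weight `B^ν(d)` and any power of the
logarithm, with the maximum over the heights `y ≤ N` inside the sum and with the maximum over the residue
classes inside the sum over the divisors `q ≤ N^κ` of the moduli, every `κ < 1/3`.

For all `θ < 43/84`, `κ < 1/3` the moduli are the squarefree `q t ≤ N^θ`, where `q ≤ N^κ` is arbitrary
and `t` is a product of primes in `(N^ε, N^η]`; the residue class is an arbitrary function `a(q)` of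
`q`, i.e. a class modulo `q` times the product of the primes in `(N^ε, N^η]` is chosen for each `q`.

The proof: for each single `q` the primes in the class `a(q)` modulo `q` are distributed over the
classes `a(q)` modulo `q t` with a power saving, which absorbs all weights (method of Zhang and
Polymath 8a, for one individual left modulus; the Weil bound and the completion of sums are from the
starting files `Pool.Agent.Y826.Z`); then a weighted theorem of Bombieri and Vinogradov with the maximum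
over the heights inside (`Pool.Agent.R503.W`, from the starting file `Pool.Agent.H442R2.KF.BvY`) for
the moduli `q`.
-/

set_option autoImplicit false

namespace Pool.Agent.Results.MP_188a10_nt.MaxInsideLargeDivisor

open Finset

/-- the number of primes `p ≤ y` with `p ≡ l (mod d)` -/
noncomputable def primePi (y d : ℕ) (l : ℤ) : ℕ :=
  ((Icc 1 y).filter (fun p : ℕ => p.Prime ∧ (p : ℤ) ≡ l [ZMOD d])).card

/-- `π(y; d, l) - li(y)/φ(d)` -/
noncomputable def E (y d : ℕ) (l : ℤ) : ℝ :=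
  (primePi y d l : ℝ) - (∫ t in (2 : ℝ)..y, 1 / Real.log t) / (Nat.totient d : ℝ)

/-- the squarefree `q ≤ N^κ` for which `a(q)` is prime to `q` -/
noncomputable def left (N : ℕ) (κ : ℝ) (a : ℕ → ℤ) : Finset ℕ :=
  (Icc 1 ⌊(N : ℝ) ^ κ⌋₊).filter (fun q : ℕ => Squarefree q ∧ Int.gcd (a q) q = 1)

open Classical in
/-- the positive integers `t` with `q t ≤ N^θ`, `q t` squarefree, `(l, t) = 1`, all of whose prime
factors lie in `(N^ε, N^η]` -/
noncomputable def right (N : ℕ) (θ ε η : ℝ) (q : ℕ) (l : ℤ) : Finset ℕ :=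
  (Icc 1 N).filter (fun t : ℕ => ((q * t : ℕ) : ℝ) ≤ (N : ℝ) ^ θ ∧ Squarefree (q * t) ∧
    Int.gcd l t = 1 ∧ ∀ p : ℕ, p.Prime → p ∣ t → (N : ℝ) ^ ε < p ∧ (p : ℝ) ≤ (N : ℝ) ^ η)

theorem primePi_eq (x d : ℕ) (l : ℤ) : (primePi x d l : ℝ) = Pool.Agent.R503.N.pn x d l := by
  unfold primePi Pool.Agent.R503.N.pn
  congr 2
  ext p
  rw [mem_filter, mem_filter, Int.modEq_iff_dvd, dvd_sub_comm]

/-- **Weighted level `43/84`, with the maximum over the heights inside, and the maximum over the classes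
inside the sum over the divisors `q ≤ N^κ`, `κ < 1/3`.** -/
theorem result : ∀ θ κ : ℝ, θ < 43 / 84 → κ < 1 / 3 → ∃ η : ℝ, 0 < η ∧ ∀ ε : ℝ, 0 < ε →
    ∀ B U : ℕ, 1 ≤ B → ∃ N₀ : ℕ, ∀ N : ℕ, N₀ ≤ N → ∀ (a : ℕ → ℤ) (y : ℕ → ℕ → ℕ),
    (∀ q t, 2 ≤ y q t ∧ y q t ≤ N) →
    ∑ q ∈ left N κ a, ∑ t ∈ right N θ ε η q (a q), (B : ℝ) ^ (q * t).primeFactors.card *
      |E (y q t) (q * t) (a q)| ≤ N / Real.log N ^ U := by
  intro θ κ hθ hκ
  obtain ⟨η, hη, h⟩ := Pool.Agent.R503.W.fin_wN (max θ (1 / 2)) (max κ 0) (le_max_right _ _)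
    (max_lt hθ (by norm_num)) (le_max_right _ _) (max_lt hκ (by norm_num))
  refine ⟨η, hη, fun ε hε B U hB => ?_⟩
  obtain ⟨x₀, hx₀⟩ := Filter.eventually_atTop.1 (h ε hε B U hB)
  refine ⟨max x₀ 1, fun x hx a y hy => ?_⟩
  have hx1 : (1 : ℝ) ≤ x := by exact_mod_cast (le_max_right x₀ 1).trans hx
  have h1 := hx₀ x ((le_max_left _ _).trans hx) (left x κ a) a (fun q => right x θ ε η q (a q)) y (by
      intro q hq
      simp only [left, mem_filter, mem_Icc] at hq
      obtain ⟨⟨h1, h2⟩, h3, h4⟩ := hq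
      refine ⟨h1, ?_, Int.isCoprime_iff_gcd_eq_one.2 h4⟩
      calc (q : ℝ) ≤ (⌊(x : ℝ) ^ κ⌋₊ : ℝ) := by exact_mod_cast h2
        _ ≤ (x : ℝ) ^ κ := Nat.floor_le (by positivity)
        _ ≤ (x : ℝ) ^ (max κ 0) := Real.rpow_le_rpow_of_exponent_le hx1 (le_max_left _ _)) (by
      intro q _ t ht
      simp only [right, mem_filter] at ht
      obtain ⟨_, h2, h3, h4, h5⟩ := ht
      refine ⟨h3, Int.isCoprime_iff_gcd_eq_one.2 h4, h5, ?_⟩
      push_cast at h2
      exact h2.trans (Real.rpow_le_rpow_of_exponent_le hx1 (le_max_left _ _))) hy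
  unfold E
  simp only [primePi_eq]
  exact h1

end Pool.Agent.Results.MP_188a10_nt.MaxInsideLargeDivisor
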